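import Pool.Agent.J4H48.LA.Fin3
set_option autoImplicit false

/-!
Classes in `K_2` with independent regulators for the curves `λ ∏_e L_e = 1` over `ℚ`, where the
`L_e` are `n` arbitrary different lines in the three directions `x`, `y`, `-x-y` with integral
positions (not all of them parallel), and `λ ≠ 0` is an integer with `|λ| ≥ 10 ^ 12` or
`|λ| 2 ^ n ≥ 10 ^ 18`: so the bound for `λ` does not depend on the lines, and every `λ ≠ 0` is
admitted if there are at least sixty lines. The number of the classes is `g - T`, where `g` is the
genus and `T` the number of the triple points of the arrangement.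

The proof of the independence: for every two nonparallel lines `L_e`, `L_f` there is a loop in the
curve near their common point, on which `L_e` runs through the circle of radius `1/2` around zero and
`L_f` is very small; a third line through the point is nearly equal to `-L_e`, and all other `L_t` are
products of their value `Δ_t` at the common point, of a function `1 + d L_e`, `|d| ≤ 1`, and of a
function very near `1`. Let `R_{e,f}(c)` be the regulator of the class of the circulation `c` on this
loop. If the sum of `c` around all triples of concurrent lines is zero, then the form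
`∑ θ c_{e,f} R_{e,f}(c)` (`θ = 1` at the double points and `2/3` at the triple points) is
`log |λ| ∑ c_{e,f} ^ 2 + 1/3 ∑ log |Δ_t| (c_{e,f} + c_{f,t} + c_{t,e}) ^ 2` up to a very small error,
where the second sum is over the triples of lines which are not concurrent; then `|Δ_t| ≥ 1` because
`Δ_t` is an integer different from zero, and `|Δ_t| ≥ 2` up to at most six `t` for all `e`, `f`. The
sum of all `(c_{e,f} + c_{f,t} + c_{t,e}) ^ 2` is `3 n ∑ c_{e,f} ^ 2`, so that the form is at least
`(log |λ| + (n - 18) log 2) ∑ c_{e,f} ^ 2` up to the error.
-/

namespace Pool.Agent.Results.MP_743d1e_nt.UniformThreeDirections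

open Pool.Agent.TH826.MK (KQ Unramified Torus)

open Pool.Agent.J4H48.LA

/-- Let `L_e = x - a`, `y - a` or `-x-y - a` (`cls e = 0, 1, 2`), `a = pos e` an integer, be
`n = m + 1` different lines, not all of them parallel (`Lines`), and let `λ ≠ 0` be an integer with
`|λ| ≥ 10 ^ 12` or `|λ| 2 ^ n ≥ 10 ^ 18` (`Big`; for `n ≥ 60` every `λ ≠ 0`). Then the coordinate ring
`A = LR cls pos λ` of the curve `λ ∏_e L_e = 1` over `ℚ` is a domain; the gradient of the equation
does not vanish at the complex points of the curve; for all circulations `c` with integral values the
class `∑_{e,f} c_{e,f} {L_e, L_f}` in the rational Milnor K-group of `A` has an unramified image for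
all fields `L` with a homomorphism `A → L`; and for `g = pq + pr + qr - (p + q + r) + 1`, where `p`,
`q`, `r` are the numbers of lines in the three directions, and the number `T` of the points which lie
on three of the lines there are `g - T` circulations and `g - T` loops in the complex points of the
curve such that the determinant of the regulators of the classes on the loops does not vanish. -/
theorem result.{u} (m : ℕ) (cls : Fin (m + 1) → Fin 3) (pos : Fin (m + 1) → ℤ) (lam : ℤ)
    (hG : Lines cls pos) (hlam : Big m lam) :
    IsDomain (LR cls pos lam) ∧
    (∀ x : Fin 2 → ℂ, MvPolynomial.eval₂ (algebraMap ℚ ℂ) x (leqn cls pos lam) = 0 →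
      ∃ j, MvPolynomial.eval₂ (algebraMap ℚ ℂ) x
        (MvPolynomial.pderiv j (leqn cls pos lam)) ≠ 0) ∧
    (∀ c : Fin (m + 1) → Fin (m + 1) → ℤ, Circ cls c →
      ∀ (L : Type u) [Field L] (φ : LR cls pos lam →+* L),
        KQ.map 2 φ (cl cls pos lam c) ∈ Unramified L 2) ∧
    ∃ (C : Fin (gen cls - trip cls pos) → Fin (m + 1) → Fin (m + 1) → ℤ)
      (Γ : Fin (gen cls - trip cls pos) → Torus (LR cls pos lam) 1),
      (∀ j, Circ cls (C j)) ∧
      (Matrix.of fun i j => (Γ i).reg (cl cls pos lam (C j))).det ≠ 0 :=
  t_FIN3.{u} m cls pos lam hG hlam

end Pool.Agent.Results.MP_743d1e_nt.UniformThreeDirections
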